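import Pool.Agent.Work.MP_bec1e1_lv_helper35.BADC

/-!
# The gain of a labelled cell in a good window (block A_ADIAG)
-/

set_option autoImplicit false
set_option maxHeartbeats 400000

open Filter Topology
open scoped BigOperators

namespace Pool.Agent.LCSV

open Pool.Agent.LCSE

noncomputable section

namespace H35

variable {k : ℕ}

lemma L_append_right_le {α : Type*} (w u v : List α) : L w (u ++ v) ≤ L w u + v.length := by
  obtain ⟨g, hg, h⟩ := L_append_split u v w
  rw [L_comm, h, L_comm w u]
  have h1 : L u (w.take g) ≤ L u w := L_mono (List.Sublist.refl _) (List.take_sublist _ _)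
  have h2 : L v (w.drop g) ≤ v.length := L_le_left _ _
  omega

/-- the power of a word -/
def pw (x : List (Fin k)) (R : ℕ) : List (Fin k) := (List.replicate R x).flatten

lemma pw_length (x : List (Fin k)) (R : ℕ) : (pw x R).length = R * x.length := by
  unfold pw
  induction R with
  | zero => simp
  | succ R ih =>
    rw [List.replicate_succ, List.flatten_cons, List.length_append, ih]; ring

lemma Ex_pw_ge (hk : 0 < k) (x : List (Fin k)) (R : ℕ) :
    R * Ex k x.length (fun y => (L x y : ℝ)) ≤ Ex k (R * x.length) fun y => (L (pw x R) y : ℝ) := by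
  induction R with
  | zero => simp [pw]
  | succ R ih =>
    have h1 : (R + 1) * x.length = x.length + R * x.length := by ring
    rw [h1, Ex_append]
    have h2 : ∀ u v : List (Fin k), (L x u : ℝ) + L (pw x R) v ≤ L (pw x (R + 1)) (u ++ v) := by
      intro u v
      have : pw x (R + 1) = x ++ pw x R := by
        unfold pw; rw [List.replicate_succ, List.flatten_cons]
      rw [this]
      exact_mod_cast L_append_ge x (pw x R) u v
    have h3 : Ex k x.length (fun u => Ex k (R * x.length) fun v => (L x u : ℝ) + L (pw x R) v) ≤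
        Ex k x.length fun u => Ex k (R * x.length) fun v => (L (pw x (R + 1)) (u ++ v) : ℝ) :=
      Ex_mono fun u _ => Ex_mono fun v _ => h2 u v
    refine le_trans ?_ h3
    have h4 : (Ex k x.length fun u => Ex k (R * x.length) fun v => (L x u : ℝ) + L (pw x R) v) =
        Ex k x.length (fun y => (L x y : ℝ)) + Ex k (R * x.length) fun y => (L (pw x R) y : ℝ) := by
      simp only [Ex_add, Ex_const hk]
    rw [h4]
    push_cast
    linarith

lemma Ex_L_lip (hk : 0 < k) (w : List (Fin k)) {c l : ℕ} (h : c ≤ l) :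
    Ex k l (fun u => (L w u : ℝ)) ≤ Ex k c (fun u => (L w u : ℝ)) + ((l : ℝ) - c) := by
  obtain ⟨d, rfl⟩ := Nat.exists_eq_add_of_le h
  rw [Ex_append]
  have : Ex k c (fun u => Ex k d fun v => (L w (u ++ v) : ℝ)) ≤
      Ex k c fun u => (L w u : ℝ) + (((c + d : ℕ) : ℝ) - c) := by
    refine Ex_mono fun u _ => Ex_le_const hk fun v hv => ?_
    have := L_append_right_le w u v
    rw [hv] at this
    push_cast
    have : (L w (u ++ v) : ℝ) ≤ L w u + d := by exact_mod_cast this
    linarith
  refine this.trans (le_of_eq ?_)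
  rw [Ex_add, Ex_const hk]

/-- the gain is at least `al e + l s / 2` in a good window -/
theorem gain_ge (hk : 2 ≤ k) (hP : PhiFacts k) {C : ℝ} (hC : 0 < C)
    (hD : ∀ a b : ℕ, Phi k a b - F k a b ≤ C * √((a : ℝ) + b)) (w : List (Fin k)) (l e : ℕ)
    {s ε : ℝ} (hε : 0 < ε) (hε1 : ε ≤ 1) (hs : 24 * ε ≤ s)
    (hw : (gam k + s) * l ≤ Ex k l (fun u => (L w u : ℝ)))
    (he : (e : ℝ) ≤ (rho k - 1) * l) (he' : (rho k - 1) * l ≤ e + 1)
    (hl : 1 + C * √(2 * k * l) ≤ l * s / 4) (x v : List (Fin k))
    (h1 : ¬ badv ε l e w v) (h2 : |(v.length : ℝ) - rho k * l| ≤ ε * l)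
    (h3 : (L x v : ℝ) ≤ Phi k l v.length + ε * l) :
    al k * e + l * s / 2 ≤ gain l e w x v := by
  have hk0 : 0 < k := by omega
  have hρ1 := hP.rho_one
  have hρk := hP.rho_lt
  have hkR : (2 : ℝ) ≤ k := by exact_mod_cast hk
  have hl0 : (0 : ℝ) ≤ l := Nat.cast_nonneg _
  have he0 : (0 : ℝ) ≤ e := Nat.cast_nonneg _
  have hεl : ε * l ≤ l := by nlinarith
  have hεl0 : 0 ≤ ε * l := by positivity
  have hal : al k ≤ 1 := by unfold al; linarith [hP.gam_lt]
  have hal0 : 0 ≤ al k := by unfold al; linarith [hP.gam_pos]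
  have hgam : gam k = 2 * al k := by unfold al; ring
  obtain ⟨h2a, h2b⟩ := abs_le.1 h2
  have hvlen : (v.length : ℝ) ≤ (k + 1) * l := by nlinarith
  have hvlen' : v.length ≤ (k + 1) * l := by exact_mod_cast hvlen
  have hnb : Ex k (min v.length l) (fun u => (L w u : ℝ)) - ε * l ≤ (L w (v.take l) : ℝ) ∧
      F k e (v.length - l) - ε * l ≤ Ex k e (fun z => (L z (v.drop l) : ℝ)) := by
    constructor
    · by_contra hcon
      exact h1 ⟨hvlen', Or.inl (not_le.1 hcon)⟩
    · by_contra hcon
      exact h1 ⟨hvlen', Or.inr (not_le.1 hcon)⟩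
  obtain ⟨hn1, hn2⟩ := hnb
  -- first part
  have hp1 : (gam k + s) * l - 2 * (ε * l) ≤ (L w (v.take l) : ℝ) := by
    have h4 := Ex_L_lip hk0 w (min_le_right v.length l)
    have h5 : (l : ℝ) - (min v.length l : ℕ) ≤ ε * l := by
      rcases le_total v.length l with h | h
      · rw [min_eq_left h]
        nlinarith
      · rw [min_eq_right h]; linarith
    linarith
  -- second part
  have hb0 : (0 : ℝ) ≤ ((v.length - l : ℕ) : ℝ) := Nat.cast_nonneg _
  have hb1 : (v.length : ℝ) - l ≤ ((v.length - l : ℕ) : ℝ) := by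
    have : v.length ≤ (v.length - l) + l := by omega
    have : (v.length : ℝ) ≤ ((v.length - l : ℕ) : ℝ) + l := by exact_mod_cast this
    linarith
  have hb2 : ((v.length - l : ℕ) : ℝ) ≤ k * l := by
    have : (v.length - l) ≤ k * l := by
      have : (k + 1) * l = k * l + l := by ring
      omega
    exact_mod_cast this
  have hp2 : gam k * e - ε * l ≤ Phi k e ((v.length - l : ℕ) : ℝ) := by
    set b : ℝ := ((v.length - l : ℕ) : ℝ)
    have h6 : Phi k e e = gam k * e := by
      have := hP.hom e 1 1 he0 zero_le_one zero_le_one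
      rw [mul_one] at this
      rw [this, mul_comm]; rfl
    have h7 := hP.lip b e (max 0 (e - b)) hb0 he0 (le_max_left _ _)
    have h8 : Phi k e e ≤ Phi k (b + max 0 (e - b)) e := by
      refine hP.mono _ _ _ _ ?_ le_rfl
      linarith [le_max_right 0 ((e : ℝ) - b)]
    have h9 : max 0 ((e : ℝ) - b) ≤ ε * l := by
      apply max_le hεl0
      nlinarith
    rw [hP.comm e b]
    linarith
  have hp3 : Phi k e ((v.length - l : ℕ) : ℝ) - C * √(2 * k * l) ≤ F k e (v.length - l) := by
    have h10 := hD e (v.length - l)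
    have h11 : √((e : ℝ) + ((v.length - l : ℕ) : ℝ)) ≤ √(2 * k * l) := by
      apply Real.sqrt_le_sqrt
      nlinarith
    have := mul_le_mul_of_nonneg_left h11 hC.le
    linarith
  -- third part
  have hp4 : (L x v : ℝ) ≤ al k * (2 * l + e + 1 + ε * l) + ε * l := by
    have h12 := hP.line l v.length hl0 (Nat.cast_nonneg _)
    have h13 : al k * ((l : ℝ) + v.length) ≤ al k * (2 * l + e + 1 + ε * l) := by
      apply mul_le_mul_of_nonneg_left _ hal0
      nlinarith
    linarith
  unfold gain
  have h14 : al k * (ε * l) ≤ ε * l := by nlinarith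
  have h15 : 6 * (ε * l) ≤ l * s / 4 := by nlinarith
  have h16 : al k * (2 * l + e + 1 + ε * l) = 2 * al k * l + al k * e + al k + al k * (ε * l) := by
    ring
  have h17 : (gam k + s) * l = 2 * al k * l + l * s := by rw [hgam]; ring
  have h18 : gam k * e = 2 * (al k * e) := by rw [hgam]; ring
  linarith

end H35

end

end Pool.Agent.LCSV
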