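import Pool.Agent.Work.MP_bec1e1_lv_helper35.EBA

/-!
# The padding (block A_ADIAG)
-/

set_option autoImplicit false
set_option maxHeartbeats 400000

open Filter Topology
open scoped BigOperators

namespace Pool.Agent.LCSV

open Pool.Agent.LCSE

noncomputable section

namespace H35

variable {k : ℕ}

lemma F_nonneg' (a b : ℕ) : 0 ≤ F k a b :=
  Ex_nonneg fun _ _ => Ex_nonneg fun _ _ => Nat.cast_nonneg _

lemma pad_pt (hP : PhiFacts k) {C : ℝ} (hC : 0 < C)
    (hD : ∀ a b : ℕ, Phi k a b - F k a b ≤ C * √((a : ℝ) + b)) (e T n m : ℕ) (hnm : n + m = T)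
    (he : e = 0 ∨ 1 < rho k) :
    2 * al k * e * T - al k * e * n - C * √(2 * e * T) -
      2 * al k * e / ((1 - 1 / rho k) ^ 2 * T) * (n : ℝ) ^ 2 ≤ F k (e * m) (e * T) := by
  rcases he with rfl | hρ
  · simp only [Nat.cast_zero, zero_mul, mul_zero, Real.sqrt_zero, sub_zero, zero_div]
    exact F_nonneg' _ _
  have hal0 : 0 ≤ al k := by unfold al; linarith [hP.gam_pos]
  have he0 : (0 : ℝ) ≤ e := Nat.cast_nonneg _
  have hn0 : (0 : ℝ) ≤ n := Nat.cast_nonneg _
  have hm0 : (0 : ℝ) ≤ m := Nat.cast_nonneg _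
  have hT0 : (0 : ℝ) ≤ T := Nat.cast_nonneg _
  have hnmR : (n : ℝ) + m = T := by exact_mod_cast hnm
  have hc : 0 < 1 - 1 / rho k := by
    have : 1 / rho k < 1 := by rw [div_lt_one (by linarith)]; exact hρ
    linarith
  set c := 1 - 1 / rho k with hcdef
  have hDD := hD (e * m) (e * T)
  have hsq : √((((e * m : ℕ) : ℝ)) + ((e * T : ℕ) : ℝ)) ≤ √(2 * e * T) := by
    apply Real.sqrt_le_sqrt
    push_cast
    nlinarith
  have hsq' := mul_le_mul_of_nonneg_left hsq hC.le
  have hB : 0 ≤ 2 * al k * e / (c ^ 2 * T) * (n : ℝ) ^ 2 := by positivity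
  by_cases hn : (n : ℝ) ≤ c * T
  · -- flat
    have hflat : Flat k ((e * m : ℕ) : ℝ) ((e * T : ℕ) : ℝ) := by
      rw [hP.flat_iff _ _ (Nat.cast_nonneg _) (Nat.cast_nonneg _)]
      push_cast
      have hrc : rho k * c = rho k - 1 := by
        rw [hcdef]
        have : rho k ≠ 0 := by linarith
        field_simp
      have hmT : (T : ℝ) ≤ rho k * m := by
        have h1 : rho k * n ≤ rho k * (c * T) := mul_le_mul_of_nonneg_left hn (by linarith)
        have h2 : rho k * (c * T) = (rho k - 1) * T := by rw [← mul_assoc, hrc]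
        nlinarith
      constructor
      · have := mul_le_mul_of_nonneg_left hmT he0
        linarith
      · have h3 : (m : ℝ) ≤ rho k * T := by nlinarith
        have := mul_le_mul_of_nonneg_left h3 he0
        linarith
    unfold Flat at hflat
    rw [hflat] at hDD
    push_cast at hDD hsq'
    have h4 : al k * (e * m + e * T) = 2 * al k * e * T - al k * e * n := by
      have : (m : ℝ) = T - n := by linarith
      rw [this]; ring
    linarith
  · -- many labels
    have hn' := not_le.1 hn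
    have hTpos : 0 < (T : ℝ) := by
      rcases hT0.lt_or_eq with h | h
      · exact h
      · exfalso
        have : (n : ℝ) ≤ 0 := by rw [h]; linarith
        rw [← h, mul_zero] at hn'
        linarith
    have h5 : 2 * al k * e * T ≤ 2 * al k * e / (c ^ 2 * T) * (n : ℝ) ^ 2 := by
      have h6 : (c * T) ^ 2 ≤ (n : ℝ) ^ 2 := by
        apply pow_le_pow_left₀ (by positivity) hn'.le
      have h7 : 2 * al k * e / (c ^ 2 * T) * (c * T) ^ 2 = 2 * al k * e * T := by
        field_simp
      rw [← h7]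
      exact mul_le_mul_of_nonneg_left h6 (by positivity)
    have h8 : 0 ≤ al k * e * n := by positivity
    have h9 : 0 ≤ C * √(2 * e * T) := by positivity
    have h10 := F_nonneg' (k := k) (e * m) (e * T)
    linarith

lemma pad_lower (hP : PhiFacts k) {C : ℝ} (hC : 0 < C)
    (hD : ∀ a b : ℕ, Phi k a b - F k a b ≤ C * √((a : ℝ) + b)) (e T : ℕ) (hT : 0 < T)
    (he : e = 0 ∨ 1 < rho k) {θ : ℝ} (h0 : 0 ≤ θ) (h1 : θ ≤ 1) :
    2 * al k * e * T - al k * e * (θ * T) - C * √(2 * e * T) -
      2 * al k * e / (1 - 1 / rho k) ^ 2 * (θ ^ 2 * T + θ) ≤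
      EB θ T fun bs => F k (e * bs.count false) (e * T) := by
  have hal0 : 0 ≤ al k := by unfold al; linarith [hP.gam_pos]
  have hTpos : (0 : ℝ) < T := by exact_mod_cast hT
  have h2 : EB θ T (fun bs => (2 * al k * e * T - C * √(2 * e * T)) + ((-(al k * e)) *
      (bs.count true : ℝ) + (-(2 * al k * e / ((1 - 1 / rho k) ^ 2 * T))) *
        (bs.count true : ℝ) ^ 2)) ≤ EB θ T fun bs => F k (e * bs.count false) (e * T) := by
    refine EB_mono h0 h1 fun bs hbs => ?_
    have hc : bs.count true + bs.count false = T := by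
      rw [← hbs]
      have := List.count_not_add_count bs true
      simpa [add_comm] using this
    have := pad_pt hP hC hD e T _ _ hc he
    linarith
  refine le_trans ?_ h2
  rw [EB_const_add, EB_add, EB_const_mul, EB_const_mul, EB_count, EB_count_sq]
  have h3 : 2 * al k * e / ((1 - 1 / rho k) ^ 2 * T) * (θ ^ 2 * T ^ 2 + θ * (1 - θ) * T) ≤
      2 * al k * e / (1 - 1 / rho k) ^ 2 * (θ ^ 2 * T + θ) := by
    have h4 : 2 * al k * e / ((1 - 1 / rho k) ^ 2 * T) * (θ ^ 2 * T ^ 2 + θ * (1 - θ) * T) =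
        2 * al k * e / (1 - 1 / rho k) ^ 2 * (θ ^ 2 * T + θ * (1 - θ)) := by
      rw [div_mul_eq_div_div]
      field_simp
    rw [h4]
    apply mul_le_mul_of_nonneg_left _ (by positivity)
    nlinarith
  linarith

end H35

end

end Pool.Agent.LCSV
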