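import Pool.Agent.Work.MP_bec1e1_lv_helper35.FPL
import Pool.Agent.Work.MP_bec1e1_lv_helper35.GAIN
import Pool.Agent.Work.MP_bec1e1_lv_helper35.PADL

/-!
# Block A_ADIAG: the mean of `L x y` over `y` is at most `gam k * |x|` for `|y| = |x|`
-/

set_option autoImplicit false
set_option maxHeartbeats 400000

open Filter Topology
open scoped BigOperators

namespace Pool.Agent.LCSV

open Pool.Agent.LCSE

noncomputable section

namespace H35

variable {k : ℕ}

lemma sum_zipWith_ge {l : ℕ} (a b : ℝ) (f g : List (Fin k) → List (Fin k) → ℝ)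
    (h : ∀ x v : List (Fin k), x.length = l → a - b * g x v ≤ f x v) :
    ∀ (xs vs : List (List (Fin k))), (∀ x ∈ xs, x.length = l) → vs.length = xs.length →
      a * xs.length - b * (List.zipWith g xs vs).sum ≤ (List.zipWith f xs vs).sum := by
  intro xs
  induction xs with
  | nil => intro vs _ _; simp
  | cons x xs ih =>
    intro vs hx hv
    obtain ⟨v, vs, rfl⟩ := List.exists_cons_of_length_eq_add_one hv
    simp only [List.length_cons, Nat.add_right_cancel_iff] at hv
    have h1 := ih vs (fun x' hx' => hx x' (List.mem_cons_of_mem _ hx')) hv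
    have h2 := h x v (hx x List.mem_cons_self)
    simp only [List.zipWith_cons_cons, List.sum_cons, List.length_cons]
    push_cast
    linarith

/-- the final computation -/
lemma final_num {C₁ kk C a l s ε θ T e al b F E1 EG EP sq sT : ℝ} (hC : 0 ≤ C) (hθ : 0 ≤ θ)
    (hT : 0 ≤ T) (hls : 0 ≤ l * s) (ha : a = al * e + l * s / 2)
    (hE1 : al * (T * l + b) - C₁ * l * sT ≤ E1)
    (hEG : a * T - (a + l) * (ε * T) ≤ EG)
    (hEP : 2 * al * e * T - al * e * (θ * T) - C * sq - l * sT ≤ EP)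
    (hpl : E1 + θ * EG + EP ≤ F) (hup : F ≤ al * (T * l + b + 2 * (e * T)))
    (hsq : sq ≤ 2 * kk * (l * sT)) (hab : (a + l) * ε ≤ l * s / 24) :
    θ * T * (l * s / 4) ≤ (C₁ + 2 * kk * C + 1) * (l * sT) := by
  have h1 := mul_le_mul_of_nonneg_left hEG hθ
  have h2 := mul_le_mul_of_nonneg_left hsq hC
  have h3 : θ * (a * T - (a + l) * (ε * T)) = θ * T * (a - (a + l) * ε) := by ring
  have h4 : θ * T * (al * e + l * s / 4) ≤ θ * T * (a - (a + l) * ε) := by
    apply mul_le_mul_of_nonneg_left _ (by positivity)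
    rw [ha] at hab ⊢
    linarith
  have h5 : θ * T * (al * e + l * s / 4) = al * e * (θ * T) + θ * T * (l * s / 4) := by ring
  have h6 : al * (T * l + b + 2 * (e * T)) = al * (T * l + b) + 2 * al * e * T := by ring
  have h7 : C₁ * l * sT = C₁ * (l * sT) := by ring
  have h8 : (C₁ + 2 * kk * C + 1) * (l * sT) = C₁ * (l * sT) + C * (2 * kk * (l * sT)) +
    l * sT := by ring
  linarith

lemma sq_aux {k l e : ℝ} (hk : 2 ≤ k) (hl : 1 ≤ l) (he : e ≤ k * l) : 2 * e ≤ (2 * k * l) ^ 2 := by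
  have h1 : 1 ≤ k * l := by nlinarith
  nlinarith

lemma exists_eps {k s : ℝ} (hk : 2 ≤ k) (hs : 0 < s) : ∃ ε : ℝ, 0 < ε ∧ ε ≤ 1 ∧ 24 * ε ≤ s ∧
    ε * (k + 1 + s) ≤ s / 24 := by
  have hpos : (0 : ℝ) < k + 1 + s := by linarith
  refine ⟨s / (24 * (k + 1 + s)), by positivity, ?_, ?_, ?_⟩
  · rw [div_le_one (by positivity)]; nlinarith
  · rw [mul_div_assoc', div_le_iff₀ (by positivity)]; nlinarith
  · rw [div_mul_eq_mul_div, div_le_div_iff₀ (by positivity) (by positivity)]; nlinarith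

lemma le_sqrt_eventually (B : ℝ) : ∀ᶠ T : ℕ in atTop, B ≤ √(T : ℝ) :=
  (Real.tendsto_sqrt_atTop.comp tendsto_natCast_atTop_atTop).eventually_ge_atTop B

lemma ev_len {k C s : ℝ} (hk : 2 ≤ k) (hs : 0 < s) :
    ∀ᶠ l : ℕ in atTop, 1 + C * √(2 * k * l) ≤ l * s / 4 := by
  filter_upwards [le_sqrt_eventually (8 * C * √(2 * k) / s), le_sqrt_eventually (√(8 / s)),
    eventually_ge_atTop 1] with l h1 h2 h3
  have hl0 : (0 : ℝ) ≤ l := Nat.cast_nonneg _
  have h4 : √(2 * k * l) = √(2 * k) * √l := Real.sqrt_mul (by positivity) _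
  have h5 : √(l : ℝ) * √(l : ℝ) = l := Real.mul_self_sqrt hl0
  have h6 : 8 / s ≤ l := by
    rw [Real.sqrt_le_sqrt_iff hl0] at h2
    exact h2
  have h7 : 1 ≤ l * s / 8 := by
    rw [div_le_iff₀ hs] at h6; linarith
  have h8 : C * √(2 * k * l) ≤ l * s / 8 := by
    rw [h4]
    rw [div_le_iff₀ hs] at h1
    have h9 := mul_le_mul_of_nonneg_right h1 (Real.sqrt_nonneg (l : ℝ))
    have h10 : √(l : ℝ) * s * √(l : ℝ) = l * s := by
      calc √(l : ℝ) * s * √(l : ℝ) = √(l : ℝ) * √(l : ℝ) * s := by ring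
        _ = l * s := by rw [h5]
    linarith
  linarith

set_option maxHeartbeats 4000000 in
theorem stmt_ADIAG (hU : Stmt_UNIF) (hS : Stmt_SPLV) (hB : Stmt_BASEP) (hTY : Stmt_TYPP)
    (hDEF : Stmt_DEF) (hPHI : Stmt_PHI) (hM : Stmt_MCD) (hLip : Stmt_LIP) (hSp : Stmt_SPLIT) :
    Stmt_ADIAG := by
  intro k hk hRig x
  by_contra hcon
  rw [not_le] at hcon
  have hk0 : 0 < k := by omega
  have hkR : (2 : ℝ) ≤ k := by exact_mod_cast hk
  have hP := hPHI k hk
  obtain ⟨C, hC, hD⟩ := hDEF k hk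
  obtain ⟨C₁, hC₁, hBP⟩ := hB k hk hRig
  have hρ1 := hP.rho_one
  have hρk := hP.rho_lt
  have hal0 : 0 < al k := by unfold al; linarith [hP.gam_pos]
  have hal : al k ≤ 1 := by unfold al; linarith [hP.gam_lt]
  have hj : 0 < x.length := by
    rcases Nat.eq_zero_or_pos x.length with h | h
    · exfalso
      obtain rfl := List.length_eq_zero_iff.1 h
      simp at hcon
    · exact h
  have hjR : (0 : ℝ) < x.length := by exact_mod_cast hj
  -- the surplus
  obtain ⟨s, hs, hsx⟩ : ∃ s : ℝ, 0 < s ∧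
      Ex k x.length (fun y => (L x y : ℝ)) = (gam k + s) * x.length := by
    refine ⟨(Ex k x.length (fun y => (L x y : ℝ)) - gam k * x.length) / x.length,
      div_pos (by linarith) hjR, ?_⟩
    field_simp
    ring
  -- constants
  obtain ⟨ε, hε, hε1, hsε, hεb⟩ := exists_eps hkR hs
  have hη : 0 < ε ^ 2 / k := by positivity
  obtain ⟨τ, hτ, hTl⟩ := hTY k hk hP ε (ε ^ 2 / k) hε hη
  set A : ℝ := 4 * (C₁ + 2 * k * C + 2) / s with hA
  have hA0 : 0 < A := by positivity
  -- the length of a cell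
  have hev2 : ∀ᶠ l : ℕ in atTop, 2 ≤ Real.exp (ε ^ 2 / k * l) := by
    have : Tendsto (fun l : ℕ => Real.exp (ε ^ 2 / k * l)) atTop atTop :=
      Real.tendsto_exp_atTop.comp (tendsto_natCast_atTop_atTop.const_mul_atTop hη)
    exact this.eventually_ge_atTop 2
  have hev3 := ev_len (C := C) hkR hs
  obtain ⟨l₀, hl₀⟩ := eventually_atTop.1 (hTl.and (hev2.and (hev3.and (eventually_ge_atTop 1))))
  obtain ⟨hTT, hex2, hl3, hl1⟩ := hl₀ (pw x (l₀ + 1)).length (by
    rw [pw_length]
    exact (Nat.le_succ l₀).trans (Nat.le_mul_of_pos_right _ hj))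
  clear hl₀ hTl hev2 hev3
  set w := pw x (l₀ + 1) with hw
  set l := w.length with hl
  have hlR : (1 : ℝ) ≤ l := by exact_mod_cast hl1
  have hwge : (gam k + s) * l ≤ Ex k l (fun u => (L w u : ℝ)) := by
    have h1 := Ex_pw_ge hk0 x (l₀ + 1)
    rw [hsx] at h1
    have h2 : l = (l₀ + 1) * x.length := by rw [hl, hw, pw_length]
    rw [h2]
    refine le_trans (le_of_eq ?_) h1
    push_cast; ring
  set e := ⌊(rho k - 1) * l⌋₊ with he
  have heb : (e : ℝ) ≤ (rho k - 1) * l :=
    Nat.floor_le (mul_nonneg (by linarith) (by linarith))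
  have heb' : (rho k - 1) * l ≤ e + 1 := (Nat.lt_floor_add_one _).le
  have he0 : (0 : ℝ) ≤ e := Nat.cast_nonneg _
  have hek : (e : ℝ) ≤ k * l :=
    heb.trans (mul_le_mul_of_nonneg_right (by linarith) (by linarith))
  have hee : e = 0 ∨ 1 < rho k := by
    rcases hρ1.lt_or_eq with h | h
    · exact Or.inr h
    · left; rw [he, ← h]; simp
  -- the number of cells
  set K₀ : ℝ := 2 * al k * e / (1 - 1 / rho k) ^ 2 * (A ^ 2 + 1) with hK₀
  have hK₀0 : 0 ≤ 2 * al k * e / (1 - 1 / rho k) ^ 2 := by positivity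
  obtain ⟨T₀, hT₀⟩ := eventually_atTop.1 (hTT.and ((le_sqrt_eventually (A * (k : ℝ) ^ l)).and
    ((le_sqrt_eventually (2 * A)).and ((le_sqrt_eventually (C₁ / τ)).and
      ((le_sqrt_eventually K₀).and (eventually_ge_atTop 1))))))
  obtain ⟨T, b, hTT₀, hflat, hbge, -, -, hbase⟩ := hBP l (dw k w) hl1 (dw_dens hk0 w) A τ hA0 hτ T₀
  obtain ⟨hTY', ht1, ht2, ht3, ht4, ht5⟩ := hT₀ T hTT₀
  clear hT₀ hTT hBP hRig
  have hTpos : (0 : ℝ) < T := by exact_mod_cast ht5
  have hsT : 0 < √(T : ℝ) := Real.sqrt_pos.2 hTpos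
  have hsTT : √(T : ℝ) * √(T : ℝ) = T := Real.mul_self_sqrt hTpos.le
  set θ := A / √(T : ℝ) with hθ
  have hθ0 : 0 < θ := by positivity
  replace hbase := hbase θ hθ0.le le_rfl
  have hθ2 : θ ≤ 1 / 2 := by
    rw [hθ, div_le_div_iff₀ hsT (by norm_num)]; linarith
  have hθk : θ * (k : ℝ) ^ l ≤ 1 := by
    rw [hθ, div_mul_eq_mul_div, div_le_one hsT]; exact ht1
  have hθT : θ * T = A * √(T : ℝ) := by
    calc θ * T = A / √(T : ℝ) * (√(T : ℝ) * √(T : ℝ)) := by rw [hsTT]
      _ = A * √(T : ℝ) := by field_simp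
  have hθTT : θ ^ 2 * T = A ^ 2 := by
    rw [hθ, div_pow, Real.sq_sqrt hTpos.le]; field_simp
  -- the density of the base
  have hdw : ∀ v : List (Fin k), dw k w v ≤ (k : ℝ) ^ l := by
    intro v
    unfold dw
    have h1 := ind_le_one (v = w)
    have h2 : (0 : ℝ) ≤ (k : ℝ) ^ w.length := by positivity
    calc (k : ℝ) ^ w.length * ind (v = w) ≤ (k : ℝ) ^ w.length * 1 :=
          mul_le_mul_of_nonneg_left h1 h2
      _ = (k : ℝ) ^ l := by rw [mul_one]
  have hdw0 : ∀ v : List (Fin k), 0 ≤ dw k w v := by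
    intro v
    exact mul_nonneg (by positivity) (ind_nonneg _)
  have hg : ∀ v : List (Fin k), v.length = l → 0 ≤ gmin θ (dw k w) v := by
    intro v _
    unfold gmin
    have h1 : θ * dw k w v ≤ θ * (k : ℝ) ^ l := mul_le_mul_of_nonneg_left (hdw v) hθ0.le
    exact div_nonneg (by linarith) (by linarith)
  have hg2 : ∀ v : List (Fin k), v.length = l → gmin θ (dw k w) v ≤ 2 := by
    intro v _
    unfold gmin
    rw [div_le_iff₀ (by linarith)]
    have : 0 ≤ θ * dw k w v := mul_nonneg hθ0.le (hdw0 v)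
    linarith
  have hgd : IsDens k l (gmin θ (dw k w)) := ⟨hg, gmin_one hk0 w (by linarith)⟩
  -- the windows
  classical
  obtain ⟨win, hwin⟩ : ∃ win : List (List (Fin k)) → List (Fin k) → List (List (Fin k)),
      ∀ xs y, xs.length = T → OptWin xs y (win xs y) := by
    refine ⟨fun xs y => if h : xs ≠ [] then Classical.choose (hSp k xs y h) else [], ?_⟩
    intro xs y hxs
    have h : xs ≠ [] := by
      rintro rfl
      simp at hxs
      omega
    simp only [dif_pos h]
    exact Classical.choose_spec (hSp k xs y h)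
  -- typical windows
  have hcast : (((T * l : ℕ)) : ℝ) = (T : ℝ) * l := by push_cast; ring
  have hble : (b : ℝ) ≤ rho k * (T * l) := by
    rw [hP.flat_iff _ _ (Nat.cast_nonneg _) (Nat.cast_nonneg _)] at hflat
    rw [← hcast]; exact hflat.1
  have hC₁T : C₁ * l * √(T : ℝ) ≤ τ * l * T := by
    rw [div_le_iff₀ hτ] at ht3
    have h1 : C₁ * (l * √(T : ℝ)) ≤ √(T : ℝ) * τ * (l * √(T : ℝ)) :=
      mul_le_mul_of_nonneg_right ht3 (by positivity)
    have h2 : √(T : ℝ) * τ * (l * √(T : ℝ)) = τ * l * T := by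
      calc √(T : ℝ) * τ * (l * √(T : ℝ)) = τ * l * (√(T : ℝ) * √(T : ℝ)) := by ring
        _ = τ * l * T := by rw [hsTT]
    linarith
  have htyp := hTY' (gmin θ (dw k w)) (fun _ v => badv ε l e w v) b win hgd hg2
    (fun c => badv_prob hM hLip (by omega) hε l e hl1 hex2 w c) hwin hbge hble (by linarith)
  clear hTY'
  -- gains
  set a : ℝ := al k * e + l * s / 2 with ha
  have hEG : a * T - (a + l) * (ε * T) ≤ Exc k l (gmin θ (dw k w)) T fun xs => Ex k b fun y =>
      (List.zipWith (gain l e w) xs (win xs y)).sum := by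
    have hbnd : ∀ xs, IsCells l T xs → ∀ y : List (Fin k),
        a * T + (-(a + l)) * (List.zipWith (fun x v =>
          ind (badv ε l e w v ∨ ε * l < |(v.length : ℝ) - rho k * l| ∨
            Phi k l v.length + ε * l < (L x v : ℝ) ∨
            (L x v : ℝ) < Phi k l v.length - ε * l)) xs (win xs y)).sum ≤
        (List.zipWith (gain l e w) xs (win xs y)).sum := by
      intro xs hxs y
      have h1 := sum_zipWith_ge (l := l) a (a + l) (gain l e w) (fun x v =>
          ind (badv ε l e w v ∨ ε * l < |(v.length : ℝ) - rho k * l| ∨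
            Phi k l v.length + ε * l < (L x v : ℝ) ∨
            (L x v : ℝ) < Phi k l v.length - ε * l)) ?_ xs (win xs y) hxs.2
            (hwin xs y hxs.1).1
      · rw [hxs.1] at h1
        linarith
      · intro x' v hx'
        by_cases hbad : badv ε l e w v ∨ ε * l < |(v.length : ℝ) - rho k * l| ∨
            Phi k l v.length + ε * l < (L x' v : ℝ) ∨
            (L x' v : ℝ) < Phi k l v.length - ε * l
        · rw [ind_of hbad]
          have h2 : (L x' v : ℝ) ≤ l := by
            have := L_le_left x' v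
            rw [hx'] at this
            exact_mod_cast this
          have h3 : 0 ≤ Ex k e (fun z => (L z (v.drop l) : ℝ)) :=
            Ex_nonneg fun _ _ => Nat.cast_nonneg _
          have h4 : (0 : ℝ) ≤ (L w (v.take l) : ℝ) := Nat.cast_nonneg _
          unfold gain
          linarith
        · rw [ind_of_not hbad]
          push Not at hbad
          obtain ⟨h5, h6, h7, -⟩ := hbad
          have := gain_ge hk hP hC hD w l e hε hε1 hsε hwge heb heb' hl3 x' v h5 h6 h7
          linarith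
    have h8 : Exc k l (gmin θ (dw k w)) T (fun xs => Ex k b fun y =>
        a * T + (-(a + l)) * (List.zipWith (fun x v =>
          ind (badv ε l e w v ∨ ε * l < |(v.length : ℝ) - rho k * l| ∨
            Phi k l v.length + ε * l < (L x v : ℝ) ∨
            (L x v : ℝ) < Phi k l v.length - ε * l)) xs (win xs y)).sum) ≤
        Exc k l (gmin θ (dw k w)) T fun xs => Ex k b fun y =>
          (List.zipWith (gain l e w) xs (win xs y)).sum :=
      Exc_mono hg fun xs hxs => Ex_mono fun y _ => hbnd xs hxs y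
    refine le_trans ?_ h8
    have h9 : ∀ xs : List (List (Fin k)), (Ex k b fun y =>
        a * T + (-(a + l)) * (List.zipWith (fun x v =>
          ind (badv ε l e w v ∨ ε * l < |(v.length : ℝ) - rho k * l| ∨
            Phi k l v.length + ε * l < (L x v : ℝ) ∨
            (L x v : ℝ) < Phi k l v.length - ε * l)) xs (win xs y)).sum) =
        a * T + (-(a + l)) * Ex k b fun y => (List.zipWith (fun x v =>
          ind (badv ε l e w v ∨ ε * l < |(v.length : ℝ) - rho k * l| ∨
            Phi k l v.length + ε * l < (L x v : ℝ) ∨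
            (L x v : ℝ) < Phi k l v.length - ε * l)) xs (win xs y)).sum := by
      intro xs
      rw [Ex_add, Ex_const hk0, Ex_const_mul]
    simp only [h9]
    rw [Exc_add, Exc_const hgd.one, Exc_const_mul]
    have h10 : 0 ≤ a + l := by positivity
    have := mul_le_mul_of_nonneg_left htyp h10
    linarith
  have hpl := F_plant hU hS hk0 w e T b θ hθ0.le (by linarith) hg win hwin
  have hpad := pad_lower hP hC hD e T ht5 hee hθ0.le (by linarith)
  have hup : F k (T * (l + e)) (b + e * T) ≤ al k * (T * l + b + 2 * (e * T)) := by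
    refine (hP.F_le _ _).trans ((hP.line _ _ (Nat.cast_nonneg _) (Nat.cast_nonneg _)).trans
      (le_of_eq ?_))
    push_cast; ring
  rw [← hl] at hpl
  -- collect
  have hsq : √(2 * (e : ℝ) * T) ≤ 2 * k * (l * √(T : ℝ)) := by
    rw [Real.sqrt_mul (by positivity)]
    have h1 : √(2 * (e : ℝ)) ≤ 2 * k * l := by
      rw [Real.sqrt_le_left (by positivity)]
      exact sq_aux hkR hlR hek
    calc √(2 * (e : ℝ)) * √(T : ℝ) ≤ 2 * k * l * √(T : ℝ) :=
          mul_le_mul_of_nonneg_right h1 hsT.le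
      _ = 2 * k * (l * √(T : ℝ)) := by ring
  have hK : 2 * al k * e / (1 - 1 / rho k) ^ 2 * (θ ^ 2 * T + θ) ≤ l * √(T : ℝ) := by
    have h1 : 2 * al k * e / (1 - 1 / rho k) ^ 2 * (θ ^ 2 * T + θ) ≤ K₀ := by
      rw [hK₀, hθTT]
      apply mul_le_mul_of_nonneg_left _ hK₀0
      linarith
    have h2 : √(T : ℝ) ≤ l * √(T : ℝ) := le_mul_of_one_le_left hsT.le hlR
    linarith
  have hab : (a + l) * ε ≤ l * s / 24 := by
    have h1 : a + l ≤ l * (k + 1 + s) := by
      rw [ha]
      have h2 : al k * e ≤ k * l := (mul_le_of_le_one_left he0 hal).trans hek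
      have h3 : (l : ℝ) * (k + 1 + s) = k * l + l + l * s := by ring
      have h4 : (0 : ℝ) ≤ l * s := by positivity
      linarith
    calc (a + l) * ε ≤ l * (k + 1 + s) * ε := mul_le_mul_of_nonneg_right h1 hε.le
      _ = l * (ε * (k + 1 + s)) := by ring
      _ ≤ l * (s / 24) := mul_le_mul_of_nonneg_left hεb (by linarith)
      _ = l * s / 24 := by ring
  have hkey : θ * T * (l * s / 4) ≤ (C₁ + 2 * k * C + 1) * (l * √(T : ℝ)) :=
    final_num hC.le hθ0.le hTpos.le (by positivity) ha hbase hEG (by linarith) hpl hup hsq hab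
  rw [hθT] at hkey
  have hAs : A * s = 4 * (C₁ + 2 * k * C + 2) := by
    rw [hA]; field_simp
  have h9 : A * √(T : ℝ) * (l * s / 4) = (C₁ + 2 * k * C + 2) * (l * √(T : ℝ)) := by
    calc A * √(T : ℝ) * (l * s / 4) = (A * s) * (l * √(T : ℝ)) / 4 := by ring
      _ = _ := by rw [hAs]; ring
  rw [h9] at hkey
  have h10 : 0 < l * √(T : ℝ) := by positivity
  have h11 : (C₁ + 2 * k * C + 2) * (l * √(T : ℝ)) = (C₁ + 2 * k * C + 1) * (l * √(T : ℝ)) +
    l * √(T : ℝ) := by ring
  linarith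

end H35

/-- Block A_ADIAG. -/
theorem stmt_ADIAG (hU : Stmt_UNIF) (hS : Stmt_SPLV) (hB : Stmt_BASEP) (hTY : Stmt_TYPP)
    (hDEF : Stmt_DEF) (hPHI : Stmt_PHI) (hM : Stmt_MCD) (hLip : Stmt_LIP) (hSp : Stmt_SPLIT) :
    Stmt_ADIAG :=
  H35.stmt_ADIAG hU hS hB hTY hDEF hPHI hM hLip hSp

end

end Pool.Agent.LCSV
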