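import Pool.Agent.Work.MP_bec1e1_lv_helper35.EBA

/-!
# Exceptional windows have exponentially small probability (block A_ADIAG)
-/

set_option autoImplicit false
set_option maxHeartbeats 400000

open Filter Topology
open scoped BigOperators

namespace Pool.Agent.LCSV

open Pool.Agent.LCSE

noncomputable section

namespace H35

variable {k : ℕ}

lemma conc_low (hM : Stmt_MCD) (hk : 0 < k) (n : ℕ) (h : List (Fin k) → ℝ) (t K : ℝ)
    (ht : 0 < t) (hK : 0 < K) (hn : (n : ℝ) ≤ K)
    (hL : ∀ y y' : List (Fin k), y.length = n → y'.length = n →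
      (∃ (l₁ l₂ : List (Fin k)) (e e' : Fin k), y = l₁ ++ e :: l₂ ∧ y' = l₁ ++ e' :: l₂) →
        |h y - h y'| ≤ 1) :
    Ex k n (fun v => ind (h v < Ex k n h - t)) ≤ Real.exp (-(2 * t ^ 2 / K)) := by
  rcases Nat.eq_zero_or_pos n with rfl | hn0
  · rw [Ex_zero, Ex_zero, ind_of_not (by linarith)]
    exact (Real.exp_pos _).le
  · have h1 := (hM k 0 n (fun _ y => h y) 1 hk one_pos (fun x x' y _ _ _ _ => by simp)
      (fun x y y' _ hy hy' hex => hL y y' hy hy' hex) t ht.le).2
    simp only [Ex_zero] at h1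
    refine (Ex_mono fun v _ => ind_mono fun h2 => h2.le).trans (h1.trans ?_)
    apply Real.exp_le_exp.2
    have hn1 : (0 : ℝ) < n := by exact_mod_cast hn0
    have h3 : 2 * t ^ 2 / K ≤ 2 * t ^ 2 / (1 ^ 2 * (((0 : ℕ) : ℝ) + n)) := by
      apply div_le_div_of_nonneg_left (by positivity)
      · push_cast; linarith
      · push_cast; linarith
    linarith

lemma L_lip_right (hLip : Stmt_LIP) (z : List (Fin k)) (y y' : List (Fin k))
    (hex : ∃ (l₁ l₂ : List (Fin k)) (e e' : Fin k), y = l₁ ++ e :: l₂ ∧ y' = l₁ ++ e' :: l₂) :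
    |(L z y : ℝ) - L z y'| ≤ 1 := by
  obtain ⟨l₁, l₂, e, e', rfl, rfl⟩ := hex
  rw [L_comm z, L_comm z]
  exact hLip k l₁ l₂ z e e'

/-- exceptional windows -/
def badv (δ : ℝ) (l e : ℕ) (w v : List (Fin k)) : Prop :=
  v.length ≤ (k + 1) * l ∧
    ((L w (v.take l) : ℝ) < Ex k (min v.length l) (fun u => (L w u : ℝ)) - δ * l ∨
      Ex k e (fun z => (L z (v.drop l) : ℝ)) < F k e (v.length - l) - δ * l)

lemma badv_prob (hM : Stmt_MCD) (hLip : Stmt_LIP) (hk : 1 ≤ k) {δ : ℝ} (hδ : 0 < δ) (l e : ℕ)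
    (hl : 1 ≤ l) (hbig : 2 ≤ Real.exp (δ ^ 2 / k * l)) (w : List (Fin k)) (c : ℕ) :
    (Ex k l fun _x => Ex k c fun v => ind (badv δ l e w v)) ≤ Real.exp (-(δ ^ 2 / k * l)) := by
  have hk0 : 0 < k := hk
  have hkR : (1 : ℝ) ≤ k := by exact_mod_cast hk
  have hlR : (1 : ℝ) ≤ l := by exact_mod_cast hl
  rw [Ex_const hk0]
  by_cases hc : c ≤ (k + 1) * l
  swap
  · have : (Ex k c fun v => ind (badv δ l e w v)) = Ex k c fun _ => (0 : ℝ) := by
      refine Ex_congr fun v hv => ?_
      rw [ind_of_not]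
      rintro ⟨h, -⟩
      rw [hv] at h
      exact hc h
    rw [this, Ex_const hk0]
    exact (Real.exp_pos _).le
  -- the two events
  have hA : (Ex k c fun v => ind ((L w (v.take l) : ℝ) <
      Ex k (min c l) (fun u => (L w u : ℝ)) - δ * l)) ≤ Real.exp (-(2 * (δ * l) ^ 2 / l)) := by
    have h1 : (Ex k c fun v => ind ((L w (v.take l) : ℝ) <
        Ex k (min c l) (fun u => (L w u : ℝ)) - δ * l)) = Ex k (min c l) fun v =>
        ind ((L w v : ℝ) < Ex k (min c l) (fun u => (L w u : ℝ)) - δ * l) := by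
      rcases le_total l c with h | h
      · rw [min_eq_right h]
        exact Ex_take hk0 h (fun v => ind ((L w v : ℝ) < Ex k l (fun u => (L w u : ℝ)) - δ * l))
      · rw [min_eq_left h]
        refine Ex_congr fun v hv => ?_
        rw [List.take_of_length_le (by omega)]
    rw [h1]
    refine conc_low hM hk0 _ _ _ _ (by positivity) (by linarith) ?_ fun y y' _ _ hex =>
      L_lip_right hLip w y y' hex
    exact_mod_cast min_le_right c l
  have hB : (Ex k c fun v => ind (Ex k e (fun z => (L z (v.drop l) : ℝ)) <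
      F k e (c - l) - δ * l)) ≤ Real.exp (-(2 * (δ * l) ^ 2 / (k * l))) := by
    have h2 : (Ex k c fun v => ind (Ex k e (fun z => (L z (v.drop l) : ℝ)) <
      F k e (c - l) - δ * l)) = Ex k (c - l) fun v =>
        ind (Ex k e (fun z => (L z v : ℝ)) < F k e (c - l) - δ * l) := by
      rcases le_total l c with h | h
      · exact Ex_drop hk0 h (fun v => ind (Ex k e (fun z => (L z v : ℝ)) < F k e (c - l) - δ * l))
      · have h3 : c - l = 0 := by omega
        rw [h3, Ex_zero]
        rw [← Ex_const hk0 c (ind (Ex k e (fun z => (L z [] : ℝ)) < F k e 0 - δ * l))]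
        refine Ex_congr fun v hv => ?_
        rw [List.drop_of_length_le (by omega)]
    have h4 : F k e (c - l) = Ex k (c - l) fun v => Ex k e (fun z => (L z v : ℝ)) := by
      unfold F; rw [Ex_comm]
    rw [h2, h4]
    refine conc_low hM hk0 _ _ _ _ (by positivity) (by positivity) ?_ fun y y' _ _ hex => ?_
    · have : c - l ≤ k * l := by
        have : (k + 1) * l = k * l + l := by ring
        omega
      exact_mod_cast this
    · rw [← Ex_sub]
      refine (Ex_abs_le _ _).trans (Ex_le_const hk0 fun z _ => L_lip_right hLip z y y' hex)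
  have hAB : (Ex k c fun v => ind (badv δ l e w v)) ≤
      Real.exp (-(2 * (δ * l) ^ 2 / l)) + Real.exp (-(2 * (δ * l) ^ 2 / (k * l))) := by
    refine le_trans ?_ (add_le_add hA hB)
    rw [← Ex_add]
    refine Ex_mono fun v hv => ?_
    refine ind_le_add ?_
    rintro ⟨-, h | h⟩
    · left; rwa [hv] at h
    · right; rwa [hv] at h
  refine hAB.trans ?_
  have e1 : Real.exp (-(2 * (δ * l) ^ 2 / l)) ≤ Real.exp (-(2 * (δ ^ 2 / k * l))) := by
    apply Real.exp_le_exp.2
    have h5 : 2 * (δ * l) ^ 2 / l = 2 * (δ ^ 2 * l) := by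
      have : (l : ℝ) ≠ 0 := by positivity
      field_simp
    rw [h5]
    have h6 : δ ^ 2 / k ≤ δ ^ 2 := div_le_self (by positivity) hkR
    have : δ ^ 2 / k * l ≤ δ ^ 2 * l := mul_le_mul_of_nonneg_right h6 (by positivity)
    linarith
  have e2 : Real.exp (-(2 * (δ * l) ^ 2 / (k * l))) = Real.exp (-(2 * (δ ^ 2 / k * l))) := by
    congr 2
    have : (l : ℝ) ≠ 0 := by positivity
    have : (k : ℝ) ≠ 0 := by positivity
    field_simp
  rw [e2]
  have e3 : Real.exp (-(2 * (δ ^ 2 / k * l))) =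
      Real.exp (-(δ ^ 2 / k * l)) * Real.exp (-(δ ^ 2 / k * l)) := by
    rw [← Real.exp_add]; congr 1; ring
  have e4 : Real.exp (-(δ ^ 2 / k * l)) * 2 ≤ 1 := by
    have : Real.exp (-(δ ^ 2 / k * l)) * Real.exp (δ ^ 2 / k * l) = 1 := by
      rw [← Real.exp_add]; simp
    have h7 := mul_le_mul_of_nonneg_left hbig (Real.exp_pos (-(δ ^ 2 / k * l))).le
    linarith
  have e5 := Real.exp_pos (-(δ ^ 2 / k * l))
  rw [e3] at e1 ⊢
  nlinarith

end H35

end

end Pool.Agent.LCSV
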