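import Pool.Agent.Work.MP_bec1e1_lv_helper15.PlantInterface
import Pool.Agent.Work.MP_bec1e1_lv_h99.EXC

/-!
# API for `EB` (independent labels) and for the planted words (block A_ADIAG)
-/

set_option autoImplicit false
set_option maxHeartbeats 400000

open Filter Topology
open scoped BigOperators

namespace Pool.Agent.LCSV

open Pool.Agent.LCSE

noncomputable section

namespace H35

variable {k : ℕ}

@[simp] lemma EB_zero (θ : ℝ) (f : List Bool → ℝ) : EB θ 0 f = f [] := rfl

lemma EB_succ (θ : ℝ) (T : ℕ) (f : List Bool → ℝ) :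
    EB θ (T + 1) f = θ * EB θ T (fun bs => f (true :: bs)) +
      (1 - θ) * EB θ T (fun bs => f (false :: bs)) := rfl

lemma EB_congr {θ : ℝ} {T : ℕ} {f g : List Bool → ℝ} (h : ∀ bs, bs.length = T → f bs = g bs) :
    EB θ T f = EB θ T g := by
  induction T generalizing f g with
  | zero => exact h [] rfl
  | succ T ih =>
    rw [EB_succ, EB_succ, ih fun bs hbs => h _ (by simp [hbs]), ih fun bs hbs => h _ (by simp [hbs])]

lemma EB_mono {θ : ℝ} (h0 : 0 ≤ θ) (h1 : θ ≤ 1) {T : ℕ} {f g : List Bool → ℝ}
    (h : ∀ bs, bs.length = T → f bs ≤ g bs) : EB θ T f ≤ EB θ T g := by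
  induction T generalizing f g with
  | zero => exact h [] rfl
  | succ T ih =>
    rw [EB_succ, EB_succ]
    have h2 := ih (f := fun bs => f (true :: bs)) (g := fun bs => g (true :: bs))
      fun bs hbs => h _ (by simp [hbs])
    have h3 := ih (f := fun bs => f (false :: bs)) (g := fun bs => g (false :: bs))
      fun bs hbs => h _ (by simp [hbs])
    have := mul_le_mul_of_nonneg_left h2 h0
    have := mul_le_mul_of_nonneg_left h3 (sub_nonneg.2 h1)
    linarith

lemma EB_add (θ : ℝ) (T : ℕ) (f g : List Bool → ℝ) :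
    EB θ T (fun bs => f bs + g bs) = EB θ T f + EB θ T g := by
  induction T generalizing f g with
  | zero => rfl
  | succ T ih =>
    rw [EB_succ, EB_succ, EB_succ, ih, ih]; ring

lemma EB_const_mul (θ : ℝ) (T : ℕ) (c : ℝ) (f : List Bool → ℝ) :
    EB θ T (fun bs => c * f bs) = c * EB θ T f := by
  induction T generalizing f with
  | zero => rfl
  | succ T ih =>
    rw [EB_succ, EB_succ, ih, ih]; ring

lemma EB_const (θ : ℝ) (T : ℕ) (c : ℝ) : EB θ T (fun _ => c) = c := by
  induction T with
  | zero => rfl
  | succ T ih => rw [EB_succ, ih]; ring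

lemma EB_const_add (θ : ℝ) (T : ℕ) (c : ℝ) (f : List Bool → ℝ) :
    EB θ T (fun bs => c + f bs) = c + EB θ T f := by
  rw [EB_add, EB_const]

lemma Ex_EB_comm (n : ℕ) (θ : ℝ) (T : ℕ) (f : List (Fin k) → List Bool → ℝ) :
    Ex k n (fun x => EB θ T fun bs => f x bs) = EB θ T fun bs => Ex k n fun x => f x bs := by
  induction T generalizing f with
  | zero => rfl
  | succ T ih =>
    rw [EB_succ]
    simp only [EB_succ]
    rw [Ex_add, Ex_const_mul, Ex_const_mul, ih, ih]

lemma Exc_EB_comm (s : ℕ) (g : List (Fin k) → ℝ) (n : ℕ) (θ : ℝ) (T : ℕ)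
    (f : List (List (Fin k)) → List Bool → ℝ) :
    Exc k s g n (fun x => EB θ T fun bs => f x bs) = EB θ T fun bs => Exc k s g n fun x => f x bs := by
  induction T generalizing f with
  | zero => rfl
  | succ T ih =>
    rw [EB_succ]
    simp only [EB_succ]
    rw [Exc_add, Exc_const_mul, Exc_const_mul, ih, ih]

/-- number of labels -/
lemma EB_count (θ : ℝ) (T : ℕ) : EB θ T (fun bs => (bs.count true : ℝ)) = θ * T := by
  induction T with
  | zero => simp
  | succ T ih =>
    rw [EB_succ]
    simp only [List.count_cons_self, List.count_cons_of_ne (b := false) (a := true) (by decide)]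
    push_cast
    rw [EB_add, EB_const, ih]; ring

lemma EB_count_sq (θ : ℝ) (T : ℕ) :
    EB θ T (fun bs => (bs.count true : ℝ) ^ 2) = θ ^ 2 * T ^ 2 + θ * (1 - θ) * T := by
  induction T with
  | zero => simp
  | succ T ih =>
    rw [EB_succ]
    simp only [List.count_cons_self, List.count_cons_of_ne (b := false) (a := true) (by decide)]
    push_cast
    have h1 : ∀ bs : List Bool, ((bs.count true : ℝ) + 1) ^ 2 =
        (bs.count true : ℝ) ^ 2 + (2 * (bs.count true : ℝ) + 1) := fun bs => by ring
    simp only [h1]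
    rw [EB_add, EB_add, EB_const_mul, EB_const, ih, EB_count]; ring

/-- padding: uniform of length `e * (number of unlabelled cells)` -/
lemma Exs_pad (e T : ℕ) (hk : 0 < k) (bs : List Bool) (hbs : bs.length = T)
    (f : List (Fin k) → ℝ) :
    Exs k e T (fun zs => f (pad bs zs)) = Ex k (e * bs.count false) f := by
  induction T generalizing bs f with
  | zero =>
    obtain rfl := List.length_eq_zero_iff.1 hbs
    simp [Exs, Exc, pad]
  | succ T ih =>
    obtain ⟨b, bs, rfl⟩ := List.exists_cons_of_length_eq_add_one hbs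
    simp only [List.length_cons, Nat.add_right_cancel_iff] at hbs
    rw [Exs_succ]
    cases b with
    | true =>
      simp only [pad, List.count_cons_of_ne (b := true) (a := false) (by decide)]
      rw [Ex_const hk, ih bs hbs]
    | false =>
      simp only [pad, List.count_cons_self]
      rw [mul_add, mul_one, Ex_append, Ex_comm]
      refine Ex_congr fun z _ => ?_
      rw [ih bs hbs (fun u => f (u ++ z))]

/-- the density `k^l 1_{w}` -/
def dw (k : ℕ) (w : List (Fin k)) (v : List (Fin k)) : ℝ := (k : ℝ) ^ w.length * ind (v = w)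

lemma dw_dens (hk : 0 < k) (w : List (Fin k)) : IsDens k w.length (dw k w) := by
  refine ⟨fun v _ => mul_nonneg (by positivity) (ind_nonneg _), ?_⟩
  unfold dw
  have : (k : ℝ) ≠ 0 := by positivity
  rw [Ex_const_mul, Ex_ind_eq', ← mul_pow, mul_inv_cancel₀ this, one_pow]

lemma Ex_dw (hk : 0 < k) (w : List (Fin k)) (f : List (Fin k) → ℝ) :
    Ex k w.length (fun v => dw k w v * f v) = f w := by
  unfold dw
  have : ∀ v : List (Fin k), (k : ℝ) ^ w.length * ind (v = w) * f v =
      (k : ℝ) ^ w.length * (if v = w then f v else 0) := by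
    intro v
    by_cases h : v = w
    · simp [h, ind]
    · simp [h, ind]
  simp only [this]
  rw [Ex_const_mul, Ex_indicator_eq]
  have : (k : ℝ) ≠ 0 := by positivity
  rw [← mul_assoc, ← mul_pow, mul_inv_cancel₀ this, one_pow, one_mul]

lemma Exc_dw (hk : 0 < k) (w : List (Fin k)) (T : ℕ) (f : List (List (Fin k)) → ℝ) :
    Exc k w.length (dw k w) T f = f (List.replicate T w) := by
  induction T generalizing f with
  | zero => rfl
  | succ T ih =>
    rw [Exc_succ]
    simp only [ih]
    rw [Ex_dw hk, List.replicate_succ]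

/-- gain of a labelled cell -/
def gain (l e : ℕ) (w x v : List (Fin k)) : ℝ :=
  (L w (v.take l) : ℝ) + Ex k e (fun z => (L z (v.drop l) : ℝ)) - L x v

lemma EB_cellVal (hk : 0 < k) (θ : ℝ) (l e : ℕ) (w : List (Fin k)) (T : ℕ)
    (xs vs : List (List (Fin k))) (hx : xs.length = T) (hv : vs.length = T) :
    EB θ T (fun bs => Exs k e T fun zs => cellVal l bs xs (List.replicate T w) zs vs) =
      (List.zipWith (fun x v => (L x v : ℝ) + θ * gain l e w x v) xs vs).sum := by
  induction T generalizing xs vs with
  | zero =>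
    obtain rfl := List.length_eq_zero_iff.1 hx
    obtain rfl := List.length_eq_zero_iff.1 hv
    simp [Exs, Exc, cellVal]
  | succ T ih =>
    obtain ⟨x, xs, rfl⟩ := List.exists_cons_of_length_eq_add_one hx
    obtain ⟨v, vs, rfl⟩ := List.exists_cons_of_length_eq_add_one hv
    simp only [List.length_cons, Nat.add_right_cancel_iff] at hx hv
    rw [EB_succ]
    simp only [Exs_succ, List.replicate_succ, cellVal, List.zipWith_cons_cons, List.sum_cons]
    have h1 : ∀ bs : List Bool, (Ex k e fun z => Exs k e T fun zs =>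
        (L w (v.take l) : ℝ) + L z (v.drop l) + cellVal l bs xs (List.replicate T w) zs vs) =
        ((L w (v.take l) : ℝ) + Ex k e (fun z => (L z (v.drop l) : ℝ))) +
          Exs k e T fun zs => cellVal l bs xs (List.replicate T w) zs vs := by
      intro bs
      simp only [Exs_add, Exs_const hk]
      rw [Ex_add, Ex_add, Ex_const hk, Ex_const hk]
    have h2 : ∀ bs : List Bool, (Ex k e fun _z => Exs k e T fun zs =>
        (L x v : ℝ) + cellVal l bs xs (List.replicate T w) zs vs) =
        (L x v : ℝ) + Exs k e T fun zs => cellVal l bs xs (List.replicate T w) zs vs := by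
      intro bs
      simp only [Exs_add, Exs_const hk]
      rw [Ex_const hk]
    simp only [h1, h2]
    rw [EB_const_add, EB_const_add, ih xs vs hx hv]
    generalize (List.zipWith (fun x v => (L x v : ℝ) + θ * gain l e w x v) xs vs).sum = S
    unfold gain
    ring

end H35

end

end Pool.Agent.LCSV
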