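import Pool.Agent.Work.MP_bec1e1_lv_helper35.EBA

/-!
# The lower bound for the mean by planting (block A_ADIAG)
-/

set_option autoImplicit false
set_option maxHeartbeats 400000

open Filter Topology
open scoped BigOperators

namespace Pool.Agent.LCSV

open Pool.Agent.LCSE

noncomputable section

namespace H35

variable {k : ℕ}

lemma sum_zipWith_add {α β : Type*} (f g : α → β → ℝ) (θ : ℝ) (xs : List α) (vs : List β) :
    (List.zipWith (fun x v => f x v + θ * g x v) xs vs).sum =
      (List.zipWith f xs vs).sum + θ * (List.zipWith g xs vs).sum := by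
  induction xs generalizing vs with
  | nil => simp
  | cons x xs ih =>
    cases vs with
    | nil => simp
    | cons v vs =>
      simp only [List.zipWith_cons_cons, List.sum_cons, ih]; ring

lemma gmin_one (hk : 0 < k) (w : List (Fin k)) {θ : ℝ} (h : θ < 1) :
    Ex k w.length (gmin θ (dw k w)) = 1 := by
  unfold gmin
  rw [Ex_div, Ex_sub, Ex_const_mul, Ex_const hk, (dw_dens hk w).one, mul_one, div_self]
  linarith

theorem F_plant (hU : Stmt_UNIF) (hS : Stmt_SPLV) (hk : 0 < k) (w : List (Fin k)) (e T b : ℕ)
    (θ : ℝ) (h0 : 0 ≤ θ) (h1 : θ < 1)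
    (hg : ∀ v : List (Fin k), v.length = w.length → 0 ≤ gmin θ (dw k w) v)
    (win : List (List (Fin k)) → List (Fin k) → List (List (Fin k)))
    (hwin : ∀ xs y, xs.length = T → OptWin xs y (win xs y)) :
    (Exc k w.length (gmin θ (dw k w)) T fun xs => Ex k b fun y => (L xs.flatten y : ℝ)) +
      θ * (Exc k w.length (gmin θ (dw k w)) T fun xs => Ex k b fun y =>
        (List.zipWith (gain w.length e w) xs (win xs y)).sum) +
      EB θ T (fun bs => F k (e * bs.count false) (e * T)) ≤ F k (T * (w.length + e)) (b + e * T) := by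
  set l := w.length with hl
  have hone := gmin_one hk w h1
  rw [← hl] at hone
  -- the right hand side
  have hR : F k (T * (l + e)) (b + e * T) =
      EB θ T (fun bs => Exc k l (gmin θ (dw k w)) T fun xs => Exc k l (dw k w) T fun cs =>
        Exs k e T fun zs => Ex k b fun y => Ex k (e * T) fun y2 =>
          (L (splice bs xs cs zs) (y ++ y2) : ℝ)) := by
    have := hU k l e T θ (dw k w) (fun u => Ex k b fun y => Ex k (e * T) fun y2 =>
      (L u (y ++ y2) : ℝ)) hk h1 (dw_dens hk w)
    rw [this]
    unfold F
    refine Ex_congr fun u _ => ?_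
    rw [Ex_append]
  rw [hR]
  -- pointwise bound
  have hpt : ∀ bs : List Bool, bs.length = T →
      (Exc k l (gmin θ (dw k w)) T fun xs => Exs k e T fun zs => Ex k b fun y =>
        cellVal l bs xs (List.replicate T w) zs (win xs y)) +
        F k (e * bs.count false) (e * T) ≤
      Exc k l (gmin θ (dw k w)) T fun xs => Exc k l (dw k w) T fun cs =>
        Exs k e T fun zs => Ex k b fun y => Ex k (e * T) fun y2 =>
          (L (splice bs xs cs zs) (y ++ y2) : ℝ) := by
    intro bs hbs
    have hpad : F k (e * bs.count false) (e * T) = Exs k e T fun zs =>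
        Ex k (e * T) fun y2 => (L (pad bs zs) y2 : ℝ) := by
      rw [Exs_pad e T hk bs hbs (fun u => Ex k (e * T) fun y2 => (L u y2 : ℝ))]; rfl
    have h3 : (Exc k l (gmin θ (dw k w)) T fun xs => Exs k e T fun zs => Ex k b fun y =>
        cellVal l bs xs (List.replicate T w) zs (win xs y)) +
        F k (e * bs.count false) (e * T) =
        Exc k l (gmin θ (dw k w)) T fun xs => Exs k e T fun zs => Ex k b fun y =>
          Ex k (e * T) fun y2 => cellVal l bs xs (List.replicate T w) zs (win xs y) +
            (L (pad bs zs) y2 : ℝ) := by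
      have h4 : ∀ xs : List (List (Fin k)), (Exs k e T fun zs => Ex k b fun y =>
          Ex k (e * T) fun y2 => cellVal l bs xs (List.replicate T w) zs (win xs y) +
            (L (pad bs zs) y2 : ℝ)) = (Exs k e T fun zs => Ex k b fun y =>
        cellVal l bs xs (List.replicate T w) zs (win xs y)) +
          F k (e * bs.count false) (e * T) := by
        intro xs
        rw [hpad, ← Exs_add]
        refine Exs_congr fun zs _ => ?_
        have h5 : ∀ y : List (Fin k), (Ex k (e * T) fun y2 =>
            cellVal l bs xs (List.replicate T w) zs (win xs y) + (L (pad bs zs) y2 : ℝ)) =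
            cellVal l bs xs (List.replicate T w) zs (win xs y) +
              Ex k (e * T) fun y2 => (L (pad bs zs) y2 : ℝ) := by
          intro y
          rw [Ex_add, Ex_const hk]
        simp only [h5]
        rw [Ex_add, Ex_const hk]
      simp only [h4]
      rw [Exc_add, Exc_const hone]
    rw [h3]
    refine Exc_mono hg fun xs hxs => ?_
    rw [Exc_dw hk w T (fun cs => Exs k e T fun zs => Ex k b fun y => Ex k (e * T) fun y2 =>
          (L (splice bs xs cs zs) (y ++ y2) : ℝ))]
    refine Exs_mono fun zs hzs => Ex_mono fun y _ => Ex_mono fun y2 _ => ?_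
    obtain ⟨hw1, hw2, -⟩ := hwin xs y hxs.1
    have := hS k l bs xs (List.replicate T w) zs (win xs y) y2 (by rw [hxs.1, hbs])
      (by simp [hbs]) (by rw [hzs.1, hbs]) (by rw [hw1, hxs.1, hbs])
    rwa [hw2] at this
  refine le_trans (le_of_eq ?_) (EB_mono h0 h1.le hpt)
  rw [EB_add]
  congr 1
  rw [← Exc_EB_comm]
  rw [← Exc_const_mul, ← Exc_add]
  refine Exc_congr fun xs hxs => ?_
  have h6 : EB θ T (fun bs => Exs k e T fun zs => Ex k b fun y =>
      cellVal l bs xs (List.replicate T w) zs (win xs y)) = Ex k b fun y =>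
      EB θ T fun bs => Exs k e T fun zs => cellVal l bs xs (List.replicate T w) zs (win xs y) := by
    rw [Ex_EB_comm]
    refine EB_congr fun bs _ => ?_
    rw [Ex_Exs_comm]
  rw [h6, ← Ex_const_mul, ← Ex_add]
  refine Ex_congr fun y _ => ?_
  obtain ⟨hw1, -, hw3⟩ := hwin xs y hxs.1
  rw [EB_cellVal hk θ l e w T xs (win xs y) hxs.1 (by rw [hw1, hxs.1]), hw3]
  exact (sum_zipWith_add (fun x v => (L x v : ℝ)) (gain l e w) θ xs (win xs y)).symm

end H35

end

end Pool.Agent.LCSV
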